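import Pool.Agent.TH316.AT.ExAsm

/-!
# The gradient bound for the clipped Parisi equation
-/

set_option autoImplicit false

open MeasureTheory ProbabilityTheory Set Filter Topology

namespace Pool.TH645.AT

open Pool.TH198.AT Pool.TH316.AT

lemma hub_lip (u v : ℝ) : |hub u - hub v| ≤ 2 * |u - v| := by
  have h1 : ∀ x ∈ (univ : Set ℝ), HasDerivWithinAt hub (2 * cl 1 x) univ x := fun x _ =>
    (hasDerivAt_hub x).hasDerivWithinAt
  have h2 : ∀ x ∈ (univ : Set ℝ), ‖2 * cl 1 x‖ ≤ 2 := by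
    intro x _
    rw [Real.norm_eq_abs, abs_mul, abs_two]
    have : |cl 1 x| ≤ 1 := by
      unfold cl
      rw [abs_le]
      exact ⟨le_max_left _ _, max_le (by norm_num) (min_le_right _ _)⟩
    linarith
  have := convex_univ.norm_image_sub_le_of_norm_hasDerivWithin_le h1 h2 (mem_univ v) (mem_univ u)
  simpa [Real.norm_eq_abs] using this

lemma lc_deriv (x : ℝ) : HasDerivAt (fun x => Real.log (Real.cosh x)) (Real.tanh x) x := by
  have h := (Real.hasDerivAt_cosh x).log (Real.cosh_pos x).ne'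
  rwa [Real.tanh_eq_sinh_div_cosh]

lemma abs_tanh_le (x : ℝ) : |Real.tanh x| ≤ 1 := by
  rw [Real.tanh_eq_sinh_div_cosh, abs_div, abs_of_pos (Real.cosh_pos x), div_le_one (Real.cosh_pos x)]
  rw [abs_le]
  constructor
  · have := Real.cosh_add_sinh x
    have h2 := Real.exp_pos x
    linarith
  · have := Real.cosh_sub_sinh x
    have h2 := Real.exp_pos (-x)
    linarith

lemma lc_lip (u v : ℝ) : |Real.log (Real.cosh u) - Real.log (Real.cosh v)| ≤ |u - v| := by
  have h1 : ∀ x ∈ (univ : Set ℝ), HasDerivWithinAt (fun x => Real.log (Real.cosh x))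
      (Real.tanh x) univ x := fun x _ => (lc_deriv x).hasDerivWithinAt
  have h2 : ∀ x ∈ (univ : Set ℝ), ‖Real.tanh x‖ ≤ 1 := fun x _ => abs_tanh_le x
  have := convex_univ.norm_image_sub_le_of_norm_hasDerivWithin_le h1 h2 (mem_univ v) (mem_univ u)
  simpa [Real.norm_eq_abs] using this

section

variable {β C : ℝ} {ζ : ℝ → ℝ} {f W Z : ℝ → ℝ → ℝ}

/-- the integrand -/
noncomputable def gg (β : ℝ) (ζ : ℝ → ℝ) (W Z : ℝ → ℝ → ℝ) (r x : ℝ) : ℝ :=
  β ^ 2 * (Z r x + ζ r * hub (W r x))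

lemma gg_ii (hζ : IsCdf ζ) (hW : BC C W) (hZ : BC C Z) (x : ℝ) {s t : ℝ} (hs : s ∈ Icc (0 : ℝ) 1)
    (ht : t ∈ Icc (0 : ℝ) 1) : IntervalIntegrable (fun r => gg β ζ W Z r x) volume s t := by
  have hsub : uIcc s t ⊆ Icc (0 : ℝ) 1 := by
    intro r hr
    rcases le_total s t with h | h
    · rw [uIcc_of_le h] at hr
      exact ⟨hs.1.trans hr.1, hr.2.trans ht.2⟩
    · rw [uIcc_of_ge h] at hr
      exact ⟨ht.1.trans hr.1, hr.2.trans hs.2⟩
  have hζi : IntervalIntegrable ζ volume s t := MonotoneOn.intervalIntegrable (hζ.1.mono hsub)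
  unfold gg
  refine IntervalIntegrable.const_mul ?_ _
  refine IntervalIntegrable.add ?_ ?_
  · exact (hZ.1.comp (continuous_id.prodMk continuous_const)).intervalIntegrable _ _
  · refine hζi.mul_continuousOn ?_
    exact (continuous_hub.comp (hW.1.comp (continuous_id.prodMk continuous_const))).continuousOn

lemma gg_bd (hζ : IsCdf ζ) (hW : BC C W) (hZ : BC C Z) (x : ℝ) {t : ℝ}
    (ht : t ∈ Icc (0 : ℝ) 1) : |gg β ζ W Z t x| ≤ β ^ 2 * (3 * C + 1) := by
  unfold gg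
  rw [abs_mul, abs_of_nonneg (sq_nonneg β)]
  refine mul_le_mul_of_nonneg_left ?_ (sq_nonneg β)
  obtain ⟨z0, z1⟩ := hζ.2.1 t ht
  have h1 : |ζ t * hub (W t x)| ≤ 1 + 2 * C := by
    rw [abs_mul, abs_of_nonneg z0]
    have h2 := abs_hub_le (W t x)
    have h3 := hW.2 t x
    calc ζ t * |hub (W t x)| ≤ 1 * |hub (W t x)| :=
          mul_le_mul_of_nonneg_right z1 (abs_nonneg _)
      _ ≤ 1 + 2 * C := by linarith
  calc |Z t x + ζ t * hub (W t x)| ≤ |Z t x| + |ζ t * hub (W t x)| := abs_add_le _ _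
    _ ≤ 3 * C + 1 := by linarith [hZ.2 t x]

lemma right_der (hζ : IsCdf ζ) (hW : BC C W) (hZ : BC C Z)
    (heq : ∀ t ∈ Icc (0 : ℝ) 1, ∀ x, f t x =
      Real.log (Real.cosh x) + ∫ r in t..1, gg β ζ W Z r x) (y : ℝ)
    {t : ℝ} (ht : t ∈ Ico (0 : ℝ) 1) :
    HasDerivWithinAt (fun τ => f τ y) (-gg β ζ W Z t y) (Ici t) t := by
  have ht' : t ∈ Icc (0 : ℝ) 1 := ⟨ht.1, ht.2.le⟩
  have h3 : (1 : ℝ) ∈ Icc (0 : ℝ) 1 := ⟨zero_le_one, le_rfl⟩
  have hsub : Icc t 1 ⊆ Icc (0 : ℝ) 1 := Icc_subset_Icc_left ht.1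
  have hmem : Icc t 1 ∈ 𝓝[Ici t] t := Icc_mem_nhdsGE ht.2
  have hcw : ContinuousWithinAt (fun r => gg β ζ W Z r y) (Ici t) t := by
    have ha : ContinuousWithinAt (fun r => hub (W r y)) (Ici t) t :=
      (continuous_hub.comp (hW.1.comp (continuous_id.prodMk continuous_const))).continuousWithinAt
    have hb : ContinuousWithinAt (fun r => Z r y) (Ici t) t :=
      (hZ.1.comp (continuous_id.prodMk continuous_const)).continuousWithinAt
    exact (hb.add ((hζ.2.2.2 t ht).mul ha)).const_mul _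
  have hii := gg_ii (β := β) hζ hW hZ y ht' h3
  have h4 : HasDerivWithinAt (fun τ => ∫ r in τ..1, gg β ζ W Z r y)
      (-gg β ζ W Z t y) (Ici t) t := by
    refine intervalIntegral.integral_hasDerivWithinAt_left (t := Ioi t) hii ?_
      (hcw.mono Ioi_subset_Ici_self)
    refine ⟨Ioc t 1, Ioc_mem_nhdsGT ht.2, ?_⟩
    exact ((intervalIntegrable_iff_integrableOn_Ioc_of_le ht.2.le).1 hii).aestronglyMeasurable
  refine (h4.const_add (Real.log (Real.cosh y))).congr_of_eventuallyEq ?_ (heq t ht' y)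
  filter_upwards [hmem] with τ hτ
  exact heq τ (hsub hτ) y

lemma time_lip (hζ : IsCdf ζ) (hW : BC C W) (hZ : BC C Z)
    (heq : ∀ t ∈ Icc (0 : ℝ) 1, ∀ x, f t x =
      Real.log (Real.cosh x) + ∫ r in t..1, gg β ζ W Z r x) (y : ℝ)
    {s t : ℝ} (hs : s ∈ Icc (0 : ℝ) 1) (ht : t ∈ Icc (0 : ℝ) 1) :
    |f s y - f t y| ≤ β ^ 2 * (3 * C + 1) * |s - t| := by
  have h3 : (1 : ℝ) ∈ Icc (0 : ℝ) 1 := ⟨zero_le_one, le_rfl⟩
  rw [heq s hs, heq t ht, add_sub_add_left_eq_sub,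
    intervalIntegral.integral_interval_sub_interval_comm' (gg_ii hζ hW hZ y hs h3)
      (gg_ii hζ hW hZ y ht h3) (gg_ii hζ hW hZ y hs ht)]
  rw [intervalIntegral.integral_same, zero_sub, abs_neg]
  have h1 : ∀ r ∈ uIoc t s, ‖gg β ζ W Z r y‖ ≤ β ^ 2 * (3 * C + 1) := by
    intro r hr
    refine gg_bd hζ hW hZ y ?_
    rcases le_total s t with h | h
    · rw [uIoc_of_ge h] at hr
      exact ⟨hs.1.trans hr.1.le, hr.2.trans ht.2⟩
    · rw [uIoc_of_le h] at hr
      exact ⟨ht.1.trans hr.1.le, hr.2.trans hs.2⟩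
  have := intervalIntegral.norm_integral_le_of_norm_le_const h1
  simpa [Real.norm_eq_abs] using this

lemma space_lip (hf : ∀ t ∈ Icc (0 : ℝ) 1, ∀ x, HasDerivAt (f t) (W t x) x) (hW : BC C W)
    {t : ℝ} (ht : t ∈ Icc (0 : ℝ) 1) (u v : ℝ) : |f t u - f t v| ≤ C * |u - v| := by
  have h1 : ∀ x ∈ (univ : Set ℝ), HasDerivWithinAt (f t) (W t x) univ x := fun x _ =>
    (hf t ht x).hasDerivWithinAt
  have h2 : ∀ x ∈ (univ : Set ℝ), ‖W t x‖ ≤ C := fun x _ => hW.2 t x
  have := convex_univ.norm_image_sub_le_of_norm_hasDerivWithin_le h1 h2 (mem_univ v) (mem_univ u)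
  simpa [Real.norm_eq_abs] using this

lemma f_cont (hζ : IsCdf ζ)
    (hf : ∀ t ∈ Icc (0 : ℝ) 1, ∀ x, HasDerivAt (f t) (W t x) x) (hW : BC C W) (hZ : BC C Z)
    (heq : ∀ t ∈ Icc (0 : ℝ) 1, ∀ x, f t x =
      Real.log (Real.cosh x) + ∫ r in t..1, gg β ζ W Z r x) :
    ContinuousOn (fun p : ℝ × ℝ => f p.1 p.2) (Icc 0 1 ×ˢ univ) := by
  rintro ⟨t, x⟩ ⟨ht, -⟩
  simp only at ht
  rw [ContinuousWithinAt, tendsto_iff_dist_tendsto_zero]
  have hlim : Tendsto (fun p : ℝ × ℝ => C * |p.2 - x| + β ^ 2 * (3 * C + 1) * |p.1 - t|)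
      (𝓝[Icc 0 1 ×ˢ univ] (t, x)) (𝓝 0) := by
    have hc : Continuous (fun p : ℝ × ℝ => C * |p.2 - x| + β ^ 2 * (3 * C + 1) * |p.1 - t|) := by
      fun_prop
    have := (hc.tendsto (t, x)).mono_left (nhdsWithin_le_nhds (s := Icc 0 1 ×ˢ univ))
    simpa using this
  refine squeeze_zero' (Eventually.of_forall fun _ => dist_nonneg) ?_ hlim
  filter_upwards [self_mem_nhdsWithin] with p hp
  rw [Real.dist_eq]
  have h1 := space_lip hf hW hp.1 p.2 x
  have h2 := time_lip hζ hW hZ heq x hp.1 ht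
  calc |f p.1 p.2 - f t x| = |(f p.1 p.2 - f p.1 x) + (f p.1 x - f t x)| := by ring_nf
    _ ≤ |f p.1 p.2 - f p.1 x| + |f p.1 x - f t x| := abs_add_le _ _
    _ ≤ _ := add_le_add h1 h2

lemma sh1 {g : ℝ → ℝ} {g' x h : ℝ} (H : HasDerivAt g g' (x + h)) :
    HasDerivAt (fun u => g (x + u + h)) g' 0 := by
  have h1 : HasDerivAt (fun v => g (v + h)) g' (x + 0) :=
    HasDerivAt.comp_add_const (x + 0) h (by rwa [add_zero])
  exact HasDerivAt.comp_const_add x 0 h1

lemma sh2 {g : ℝ → ℝ} {g' x : ℝ} (H : HasDerivAt g g' x) :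
    HasDerivAt (fun u => g (x + u)) g' 0 :=
  HasDerivAt.comp_const_add x 0 (by rwa [add_zero])

/-- one-sided bound of the difference, with a sign -/
lemma key (hM : St_MAX) (hβ : 0 < β) (hζ : IsCdf ζ)
    (hf : ∀ t ∈ Icc (0 : ℝ) 1, ∀ x, HasDerivAt (f t) (W t x) x ∧ HasDerivAt (W t) (Z t x) x)
    (hW : BC C W) (hZ : BC C Z)
    (heq : ∀ t ∈ Icc (0 : ℝ) 1, ∀ x, f t x =
      Real.log (Real.cosh x) + ∫ r in t..1, gg β ζ W Z r x)
    (σ : ℝ) (hσ : |σ| = 1) (h : ℝ) (hh : 0 < h) {t : ℝ} (ht : t ∈ Icc (0 : ℝ) 1) (x : ℝ) :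
    σ * (f t (x + h) - f t x) ≤ h := by
  have hC : 0 ≤ C := (abs_nonneg _).trans (hW.2 0 0)
  set c : ℝ → ℝ → ℝ → ℝ := fun t x _ =>
    β ^ 2 * (ζ t * ((hub (W t (x + h)) - hub (W t x)) / (W t (x + h) - W t x))) with hc
  have hcont : ContinuousOn (fun p : ℝ × ℝ × ℝ => h - σ * (f p.1 (p.2.1 + h) - f p.1 p.2.1))
      (Icc 0 1 ×ˢ univ) := by
    have hfc := f_cont hζ (fun t ht x => (hf t ht x).1) hW hZ heq
    have h1 : ContinuousOn (fun p : ℝ × ℝ × ℝ => f p.1 (p.2.1 + h)) (Icc 0 1 ×ˢ univ) := by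
      refine hfc.comp (f := fun p : ℝ × ℝ × ℝ => (p.1, p.2.1 + h)) (by fun_prop) ?_
      intro p hp
      exact ⟨hp.1, mem_univ _⟩
    have h2 : ContinuousOn (fun p : ℝ × ℝ × ℝ => f p.1 p.2.1) (Icc 0 1 ×ˢ univ) := by
      refine hfc.comp (f := fun p : ℝ × ℝ × ℝ => (p.1, p.2.1)) (by fun_prop) ?_
      intro p hp
      exact ⟨hp.1, mem_univ _⟩
    exact continuousOn_const.sub (continuousOn_const.mul (h1.sub h2))
  have hmain := hM (2 * β ^ 2) 0 1 (2 * β ^ 2 + C * h)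
    (fun t x _ => h - σ * (f t (x + h) - f t x))
    (fun t x _ => -(σ * (-gg β ζ W Z t (x + h) - -gg β ζ W Z t x)))
    (fun t x _ => -(σ * (W t (x + h) - W t x)))
    (fun t x _ => -(σ * (Z t (x + h) - Z t x)))
    (fun t x _ => -(σ * (W t (x + h) - W t x)))
    (fun _ _ _ => 0) c (fun _ _ _ => 0) (by positivity) zero_le_one hcont ?_ ?_ ?_ t ht x 0
  · linarith
  · intro t ht x y
    have ht' : t ∈ Icc (0 : ℝ) 1 := ⟨ht.1, ht.2.le⟩
    refine ⟨?_, ?_, ?_, ?_, ?_, ?_, ?_, ?_⟩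
    · have h1 := right_der hζ hW hZ heq (x + h) ht
      have h2 := right_der hζ hW hZ heq x ht
      exact ((h1.sub h2).const_mul σ).const_sub h
    · exact (((sh1 (hf t ht' (x + h)).1).sub (sh2 (hf t ht' x).1)).const_mul σ).const_sub h
    · exact (((sh1 (hf t ht' (x + h)).2).sub (sh2 (hf t ht' x).2)).const_mul σ).neg
    · have h1 : HasDerivAt (fun u => f t (u + h)) (W t (x + h)) x :=
        HasDerivAt.comp_add_const x h (hf t ht' (x + h)).1
      exact ((h1.sub (hf t ht' x).1).const_mul σ).const_sub h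
    · exact hasDerivAt_const _ _
    · have hq : |(hub (W t (x + h)) - hub (W t x)) / (W t (x + h) - W t x)| ≤ 2 := by
        rw [abs_div]
        exact div_le_of_le_mul₀ (abs_nonneg _) (by norm_num) (hub_lip _ _)
      obtain ⟨z0, z1⟩ := hζ.2.1 t ht'
      simp only [hc]
      rw [abs_mul, abs_of_nonneg (sq_nonneg β), abs_mul, abs_of_nonneg z0]
      have h1 : ζ t * |(hub (W t (x + h)) - hub (W t x)) / (W t (x + h) - W t x)| ≤ 1 * 2 :=
        mul_le_mul z1 hq (abs_nonneg _) zero_le_one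
      have h2 := mul_le_mul_of_nonneg_left h1 (sq_nonneg β)
      have h3 : 0 ≤ C * h := by positivity
      linarith
    · rw [abs_zero]; positivity
    · simp only [hc]
      have hk : (hub (W t (x + h)) - hub (W t x)) / (W t (x + h) - W t x) *
          (W t (x + h) - W t x) = hub (W t (x + h)) - hub (W t x) := by
        rcases eq_or_ne (W t (x + h) - W t x) 0 with h0 | h0
        · rw [h0, mul_zero, sub_eq_zero.1 h0, sub_self]
        · rw [div_mul_cancel₀ _ h0]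
      have : β ^ 2 * (ζ t * ((hub (W t (x + h)) - hub (W t x)) / (W t (x + h) - W t x))) *
          -(σ * (W t (x + h) - W t x)) = -(σ * (β ^ 2 * (ζ t *
            (hub (W t (x + h)) - hub (W t x))))) := by
        linear_combination (-(β ^ 2 * ζ t * σ)) * hk
      rw [this]
      simp only [gg]
      apply le_of_eq
      ring
  · intro x y
    have h3 : (1 : ℝ) ∈ Icc (0 : ℝ) 1 := ⟨zero_le_one, le_rfl⟩
    have h1 : ∀ x, f 1 x = Real.log (Real.cosh x) := by
      intro x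
      rw [heq 1 h3 x, intervalIntegral.integral_same, add_zero]
    simp only [h1]
    have h2 := lc_lip (x + h) x
    rw [add_sub_cancel_left, abs_of_pos hh] at h2
    have h4 : σ * (Real.log (Real.cosh (x + h)) - Real.log (Real.cosh x)) ≤ h := by
      refine (le_abs_self _).trans ?_
      rw [abs_mul, hσ, one_mul]
      exact h2
    linarith
  · intro t ht x y
    have h2 := space_lip (fun t ht x => (hf t ht x).1) hW ht (x + h) x
    rw [add_sub_cancel_left, abs_of_pos hh] at h2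
    have h4 : σ * (f t (x + h) - f t x) ≤ C * h := by
      refine (le_abs_self _).trans ?_
      rw [abs_mul, hσ, one_mul]
      exact h2
    have h5 : 0 ≤ (2 * β ^ 2 + C * h) * (|x| + |y|) := by positivity
    nlinarith [sq_nonneg β]

end

theorem t_MX (hM : St_MAX) : St_MX := by
  intro β C ζ f W Z hβ hζ hf hW hZ heq t ht x
  have k1 := fun h hh => key hM hβ hζ hf hW hZ heq 1 (by simp) h hh ht x
  have k2 := fun h hh => key hM hβ hζ hf hW hZ heq (-1) (by simp) h hh ht x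
  have hd := ((hf t ht x).1).tendsto_slope_zero_right
  rw [abs_le]
  constructor
  · refine ge_of_tendsto hd ?_
    filter_upwards [self_mem_nhdsWithin] with h hh
    have hh' : 0 < h := hh
    have h1 := k2 h hh'
    rw [smul_eq_mul, inv_mul_eq_div, le_div_iff₀ hh']
    linarith
  · refine le_of_tendsto hd ?_
    filter_upwards [self_mem_nhdsWithin] with h hh
    have hh' : 0 < h := hh
    have h1 := k1 h hh'
    rw [smul_eq_mul, inv_mul_eq_div, div_le_iff₀ hh']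
    linarith


end Pool.TH645.AT
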